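import Pool.Agent.Helper10.GO.GoalsT
import Pool.Agent.Helper42.AD.LOCF

/-!
# Project GO (MP_6af536_nt), packet UPL: the upper bound for one step
-/

set_option autoImplicit false

open MvPolynomial

noncomputable section

namespace Pool.Agent.Helper91.GO

open Pool.Agent.Helper10.GO Pool.Agent.Helper80.AD Pool.Agent.Helper80.HD
open Pool.Agent.Helper42.AD (le_vn exists_vn vn_le eval_smul)

theorem one_le_vn_of {F : Type} [Field F] {N : ℕ} (v : AbsoluteValue F ℝ) {y : Fin (N + 1) → F}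
    (h : ∃ j, y j = 1) : 1 ≤ vn v y := by
  obtain ⟨j, hj⟩ := h
  have := le_vn v y j
  rwa [hj, map_one] at this

theorem upl_key {K F : Type} [Field K] [Field F] [Algebra K F] {N : ℕ}
    {G : Fin (N + 1) → MvPolynomial (Fin (N + 1)) K} {δ : ℕ} (hG : ∀ j, (G j).IsHomogeneous δ)
    (v : AbsoluteValue F ℝ) {Γ : ℝ} (hΓ : 1 ≤ Γ)
    (hb : ∀ (j : Fin (N + 1)) (W : Fin (N + 1) → F), (∀ l, v (W l) ≤ 1) →
      v (eval₂ (algebraMap K F) W (G j)) ≤ Γ)
    (y y' : Fin (N + 1) → F) (g : F) (hg : g ≠ 0) (hy : ∃ j, y j = 1) (hy' : ∃ j, y' j = 1)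
    (h : ∀ j, eval₂ (algebraMap K F) y (G j) = g * y' j) :
    Real.log (v g) ≤ δ * Real.log (vn v y) - Real.log (vn v y') + Real.log Γ := by
  have hR1 := one_le_vn_of v hy
  have hU1 := one_le_vn_of v hy'
  obtain ⟨i, hi⟩ := exists_vn v y
  obtain ⟨l, hl⟩ := exists_vn v y'
  have hR0 : 0 < vn v y := by linarith
  have hU0 : 0 < vn v y' := by linarith
  have hyi : y i ≠ 0 := by
    intro h0
    rw [h0, map_zero] at hi
    linarith
  have hvg : 0 < v g := v.pos hg
  have hW1 : ∀ j, v (y j / y i) ≤ 1 := fun j => by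
    rw [map_div₀, hi, div_le_one hR0]
    exact le_vn v y j
  have hyW : y = fun j => y i * (y j / y i) := by
    funext j
    field_simp
  have h1 : g * y' l = y i ^ δ * eval₂ (algebraMap K F) (fun j => y j / y i) (G l) := by
    rw [← h l, ← eval_smul (hG l) (algebraMap K F) (y i) fun j => y j / y i, ← hyW]
  have h2 := congrArg v h1
  rw [map_mul, map_mul, map_pow, hi, hl] at h2
  have h3 : v g * vn v y' ≤ vn v y ^ δ * Γ := by
    rw [h2]
    exact mul_le_mul_of_nonneg_left (hb l _ hW1) (by positivity)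
  have h4 := Real.log_le_log (by positivity) h3
  rw [Real.log_mul hvg.ne' hU0.ne', Real.log_mul (by positivity) (by positivity),
    Real.log_pow] at h4
  linarith

/-- PACKET UPL. -/
theorem upl (hGAM : S_GAM) : S_UPL := by
  classical
  intro K _ _ _ N r δ G hG
  obtain ⟨Γ, G', hΓ, hG', hb⟩ := hGAM K (Fin (N + 1))
    (Set.range fun p : Fin r × Fin (N + 1) => G p.1 p.2) (Set.finite_range _)
  refine ⟨Γ, 1 + Real.log G', hΓ, by linarith [Real.log_nonneg hG'], ?_⟩
  intro F l y y' c hc h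
  obtain ⟨j₀, hj₀⟩ := y'.2.2
  have hcoe : ∀ j, ((aeval y.1 (G l j) : F) : ℂ) = aeval (cv y.1) (G l j) := by
    intro j
    have := aeval_algebraMap_apply ℂ y.1 (G l j)
    exact this.symm
  set g : F := aeval y.1 (G l j₀) with hgdef
  have hgc : (g : ℂ) = c := by
    rw [hgdef, hcoe, h j₀]
    show c * ((y'.1 j₀ : F) : ℂ) = c
    rw [hj₀]
    simp
  have hg : g ≠ 0 := by
    rintro h0
    rw [h0] at hgc
    exact hc (by rw [← hgc]; rfl)
  have hstep : ∀ j, eval₂ (algebraMap K F) y.1 (G l j) = g * y'.1 j := by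
    intro j
    rw [← aeval_def]
    apply Subtype.val_injective
    show ((aeval y.1 (G l j) : F) : ℂ) = (g : ℂ) * ((y'.1 j : F) : ℂ)
    rw [hcoe, h j, hgc]
    rfl
  refine ⟨g, hg, fun v => ?_⟩
  by_cases hv : IsNonarchimedean v.1
  · have e1 : cst F Γ (1 + Real.log G') v =
        Real.log (Γ (v.1.comp (algebraMap K F).injective)) := by
      rw [cst, if_pos hv]
    rw [e1]
    refine upl_key (fun j => hG l j) v.1 (hΓ.1 _) ?_ y.1 y'.1 g hg y.2.2 y'.2.2 hstep
    intro j W hW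
    exact (hb _ ⟨(l, j), rfl⟩).1 F v.1 (algebraMap K F) W hv hW
  · obtain ⟨ι, hι⟩ : ∃ ι : F →+* ℂ, ∀ c, v.1 c = ‖ι c‖ := v.2.resolve_left hv
    have e1 : cst F Γ (1 + Real.log G') v = 1 + Real.log G' := by
      rw [cst, if_neg hv]
    rw [e1]
    have hk := upl_key (fun j => hG l j) v.1 hG' (by
      intro j W hW
      have hev : v.1 (eval₂ (algebraMap K F) W (G l j)) =
          ‖eval₂ (ι.comp (algebraMap K F)) (fun l => ι (W l)) (G l j)‖ := by
        rw [hι]
        congr 1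
        exact eval₂_comp_left ι (algebraMap K F) W (G l j)
      rw [hev]
      exact (hb _ ⟨(l, j), rfl⟩).2 _ _ fun l => by rw [← hι]; exact hW l)
      y.1 y'.1 g hg y.2.2 y'.2.2 hstep
    have e2 : hV F y v = Real.log (vn v.1 y.1) := rfl
    have e3 : hV F y' v = Real.log (vn v.1 y'.1) := rfl
    rw [e2, e3]
    linarith

end Pool.Agent.Helper91.GO
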